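import Pool.Agent.Y862.SQ.Stm

set_option autoImplicit false

/-!
# Project SQ: the singular factors are close to one in mean square
-/

namespace Pool.Agent.Y117.SQ

open Finset Pool.Agent.Y862.SQ Filter

/-- values of the symbol -/
lemma leg_abs (h p : ℕ) : |(leg h p : ℝ)| ≤ 1 := by
  unfold leg
  rcases jacobiSym.trichotomy (-(h : ℤ)) p with h1 | h1 | h1 <;> rw [h1] <;> simp

/-- the product over a finite set -/
noncomputable def GG (S : Finset ℕ) (h : ℕ) : ℝ := ∏ p ∈ S, (1 - (leg h p : ℝ) / ((p : ℝ) - 1))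

/-- the logarithm of one factor -/
lemma log_one (l p : ℝ) (hl : |l| ≤ 1) (hp : 5 ≤ p) :
    |Real.log (1 - l / (p - 1)) + l / p| ≤ 4 / p ^ 2 := by
  have hp1 : 0 < p - 1 := by linarith
  have hp0 : 0 < p := by linarith
  have hv : |l / (p - 1)| ≤ 1 / (p - 1) := by
    rw [abs_div, abs_of_pos hp1]
    gcongr
  have h14 : 1 / (p - 1) ≤ 1 / 4 := by
    apply one_div_le_one_div_of_le <;> linarith
  have hlt : |l / (p - 1)| < 1 := by linarith
  have h1 := Real.abs_log_sub_add_sum_range_le hlt 1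
  simp only [Finset.sum_range_one] at h1
  norm_num at h1
  have h2 : |l / (p - 1)| ^ 2 / (1 - |l / (p - 1)|) ≤ (4 / 3) * (1 / (p - 1)) ^ 2 := by
    rw [div_le_iff₀ (by linarith)]
    have h3 : |l / (p - 1)| ^ 2 ≤ (1 / (p - 1)) ^ 2 := by gcongr
    have h4 : 3 / 4 ≤ 1 - |l / (p - 1)| := by linarith
    have h5 : 0 ≤ (1 / (p - 1)) ^ 2 := by positivity
    nlinarith
  have h3 : |l / (p - 1) + Real.log (1 - l / (p - 1))| ≤ (4 / 3) * (1 / (p - 1)) ^ 2 := by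
    refine le_trans ?_ h2
    simpa [sq_abs] using h1
  have h4 : |l / p - l / (p - 1)| ≤ 1 / (p * (p - 1)) := by
    have : l / p - l / (p - 1) = - (l * (1 / (p * (p - 1)))) := by
      field_simp
      ring
    rw [this, abs_neg, abs_mul, abs_of_pos (a := 1 / (p * (p - 1))) (by positivity)]
    exact mul_le_of_le_one_left (by positivity) hl
  have h5 : |Real.log (1 - l / (p - 1)) + l / p| ≤
      |l / (p - 1) + Real.log (1 - l / (p - 1))| + |l / p - l / (p - 1)| := by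
    have : Real.log (1 - l / (p - 1)) + l / p =
      (l / (p - 1) + Real.log (1 - l / (p - 1))) + (l / p - l / (p - 1)) := by ring
    rw [this]
    exact abs_add_le _ _
  have h6 : 1 / (p - 1) ≤ (5 / 4) * (1 / p) := by
    rw [div_le_iff₀ hp1]
    have : (5 / 4) * (1 / p) * (p - 1) = 5 / 4 - (5 / 4) * (1 / p) := by
      field_simp
    rw [this]
    have : 1 / p ≤ 1 / 5 := by apply one_div_le_one_div_of_le <;> linarith
    linarith
  have h7 : (1 / (p - 1)) ^ 2 ≤ (25 / 16) * (1 / p ^ 2) := by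
    calc (1 / (p - 1)) ^ 2 ≤ ((5 / 4) * (1 / p)) ^ 2 := by gcongr
      _ = (25 / 16) * (1 / p ^ 2) := by ring
  have h8 : 1 / (p * (p - 1)) ≤ (5 / 4) * (1 / p ^ 2) := by
    calc 1 / (p * (p - 1)) = (1 / p) * (1 / (p - 1)) := by field_simp
      _ ≤ (1 / p) * ((5 / 4) * (1 / p)) := by gcongr
      _ = (5 / 4) * (1 / p ^ 2) := by ring
  have h9 : 4 / p ^ 2 = 4 * (1 / p ^ 2) := by ring
  have h10 : 0 ≤ 1 / p ^ 2 := by positivity
  rw [h9]
  nlinarith

/-- one factor is positive and at least one half -/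
lemma fac_pos (h p : ℕ) (hp : 5 ≤ p) : 0 < 1 - (leg h p : ℝ) / ((p : ℝ) - 1) := by
  have h1 := leg_abs h p
  have h2 : (5 : ℝ) ≤ p := by exact_mod_cast hp
  have h3 : (leg h p : ℝ) / ((p : ℝ) - 1) ≤ 1 / 4 := by
    rw [div_le_iff₀ (by linarith)]
    have := (abs_le.mp h1).2
    linarith
  linarith

lemma GG_pos (S : Finset ℕ) (h : ℕ) (hS : ∀ p ∈ S, 5 ≤ p) : 0 < GG S h :=
  Finset.prod_pos fun p hp => fac_pos h p (hS p hp)

/-- sum of inverse squares -/
lemma sum_sq (S : Finset ℕ) (z : ℝ) (hz : 1 ≤ z) (hS : ∀ p ∈ S, z < p) :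
    ∑ p ∈ S, 1 / (p : ℝ) ^ 2 ≤ 2 / z := by
  have hk : 1 ≤ ⌊z⌋₊ := (Nat.one_le_floor_iff z).mpr hz
  obtain ⟨N, hN1, hN2⟩ : ∃ N, ⌊z⌋₊ ≤ N ∧ S ⊆ Finset.Ioc ⌊z⌋₊ N := by
    refine ⟨⌊z⌋₊ + ∑ p ∈ S, p, by omega, fun p hp => ?_⟩
    rw [Finset.mem_Ioc]
    refine ⟨?_, ?_⟩
    · exact (Nat.floor_lt (by linarith)).mpr (hS p hp)
    · have : p ≤ ∑ p ∈ S, p := Finset.single_le_sum (f := fun p => p) (fun _ _ => Nat.zero_le _) hp
      omega
  calc ∑ p ∈ S, 1 / (p : ℝ) ^ 2 ≤ ∑ p ∈ Finset.Ioc ⌊z⌋₊ N, 1 / (p : ℝ) ^ 2 :=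
        Finset.sum_le_sum_of_subset_of_nonneg hN2 fun _ _ _ => by positivity
    _ = ∑ p ∈ Finset.Ioc ⌊z⌋₊ N, ((p : ℝ) ^ 2)⁻¹ := by simp
    _ ≤ (⌊z⌋₊ : ℝ)⁻¹ - (N : ℝ)⁻¹ := sum_Ioc_inv_sq_le_sub (by omega) hN1
    _ ≤ (⌊z⌋₊ : ℝ)⁻¹ := by
        have : (0 : ℝ) ≤ (N : ℝ)⁻¹ := by positivity
        linarith
    _ ≤ 2 / z := by
        have h1 : z < ⌊z⌋₊ + 1 := Nat.lt_floor_add_one z
        have h2 : (1 : ℝ) ≤ ⌊z⌋₊ := by exact_mod_cast hk
        rw [inv_eq_one_div, div_le_div_iff₀ (by linarith) (by linarith)]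
        linarith

/-- the product is the exponential of a small number -/
lemma GG_exp (S : Finset ℕ) (h : ℕ) (hS : ∀ p ∈ S, 5 ≤ p) (z : ℝ) (hz : 1 ≤ z)
    (hz2 : ∀ p ∈ S, z < p) :
    ∃ x : ℝ, GG S h = Real.exp x ∧ |x| ≤ |∑ p ∈ S, (leg h p : ℝ) / p| + 8 / z := by
  refine ⟨∑ p ∈ S, Real.log (1 - (leg h p : ℝ) / ((p : ℝ) - 1)), ?_, ?_⟩
  · unfold GG
    rw [Real.exp_sum]
    refine Finset.prod_congr rfl fun p hp => ?_
    rw [Real.exp_log (fac_pos h p (hS p hp))]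
  · have h1 : |∑ p ∈ S, (Real.log (1 - (leg h p : ℝ) / ((p : ℝ) - 1)) + (leg h p : ℝ) / p)| ≤
        8 / z := by
      calc |∑ p ∈ S, (Real.log (1 - (leg h p : ℝ) / ((p : ℝ) - 1)) + (leg h p : ℝ) / p)|
          ≤ ∑ p ∈ S, |Real.log (1 - (leg h p : ℝ) / ((p : ℝ) - 1)) + (leg h p : ℝ) / p| :=
            Finset.abs_sum_le_sum_abs _ _
        _ ≤ ∑ p ∈ S, 4 / (p : ℝ) ^ 2 := by
            refine Finset.sum_le_sum fun p hp => log_one _ _ (leg_abs h p) ?_
            exact_mod_cast hS p hp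
        _ = 4 * ∑ p ∈ S, 1 / (p : ℝ) ^ 2 := by
            rw [Finset.mul_sum]
            refine Finset.sum_congr rfl fun p _ => by ring
        _ ≤ 4 * (2 / z) := by
            have := sum_sq S z hz hz2
            linarith
        _ = 8 / z := by ring
    rw [Finset.sum_add_distrib] at h1
    have h2 := abs_sub_abs_le_abs_sub (∑ p ∈ S, Real.log (1 - (leg h p : ℝ) / ((p : ℝ) - 1)))
      (-(∑ p ∈ S, (leg h p : ℝ) / p))
    rw [abs_neg, sub_neg_eq_add] at h2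
    linarith

/-- the crude upper bound -/
lemma GG_le (C : ℝ) (N : ℕ) (hN : 3 ≤ N)
    (hM : |∑ p ∈ pr N, (1 : ℝ) / p - Real.log (Real.log N)| ≤ C)
    (S : Finset ℕ) (h : ℕ) (hS : ∀ p ∈ S, 5 ≤ p) (hS2 : S ⊆ pr N) :
    GG S h ≤ Real.exp (C + 1) * Real.log N := by
  have hlogN : 1 < Real.log N := by
    rw [Real.lt_log_iff_exp_lt (by positivity)]
    have h1 : (3 : ℝ) ≤ N := by exact_mod_cast hN
    have := Real.exp_one_lt_d9
    linarith
  have h1 : GG S h ≤ ∏ p ∈ S, Real.exp (1 / ((p : ℝ) - 1)) := by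
    unfold GG
    refine Finset.prod_le_prod (fun p hp => (fac_pos h p (hS p hp)).le) fun p hp => ?_
    have h5 : (5 : ℝ) ≤ p := by exact_mod_cast hS p hp
    have h2 := Real.add_one_le_exp (1 / ((p : ℝ) - 1))
    have h3 : -((leg h p : ℝ) / ((p : ℝ) - 1)) ≤ 1 / ((p : ℝ) - 1) := by
      rw [← neg_div]
      gcongr
      · linarith
      · have := (abs_le.mp (leg_abs h p)).1
        linarith
    linarith
  rw [← Real.exp_sum] at h1
  have h2 : ∑ p ∈ S, 1 / ((p : ℝ) - 1) ≤ ∑ p ∈ S, (1 : ℝ) / p + 1 := by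
    have h3 : ∑ p ∈ S, 1 / ((p : ℝ) - 1) ≤ ∑ p ∈ S, ((1 : ℝ) / p + 2 * (1 / (p : ℝ) ^ 2)) := by
      refine Finset.sum_le_sum fun p hp => ?_
      have h5 : (5 : ℝ) ≤ p := by exact_mod_cast hS p hp
      have h6 : (1 : ℝ) / p + 2 * (1 / (p : ℝ) ^ 2) = (p + 2) / (p : ℝ) ^ 2 := by
        field_simp
      rw [h6, div_le_div_iff₀ (by linarith) (by positivity)]
      nlinarith
    rw [Finset.sum_add_distrib, ← Finset.mul_sum] at h3
    have h4 := sum_sq S 4 (by norm_num) fun p hp => by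
      have := hS p hp
      exact_mod_cast (by omega : 4 < p)
    linarith
  have h3 : ∑ p ∈ S, (1 : ℝ) / p ≤ ∑ p ∈ pr N, (1 : ℝ) / p :=
    Finset.sum_le_sum_of_subset_of_nonneg hS2 fun _ _ _ => by positivity
  have h4 := (abs_le.mp hM).2
  calc GG S h ≤ Real.exp (∑ p ∈ S, 1 / ((p : ℝ) - 1)) := h1
    _ ≤ Real.exp ((C + 1) + Real.log (Real.log N)) := by
        apply Real.exp_le_exp.mpr
        linarith
    _ = Real.exp (C + 1) * Real.log N := by
        rw [Real.exp_add, Real.exp_log (by linarith)]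

lemma tendsto_logT : Tendsto (fun T : ℕ => Real.log (T : ℝ)) atTop atTop :=
  Real.tendsto_log_atTop.comp tendsto_natCast_atTop_atTop

lemma tendsto_z1 : Tendsto z1 atTop atTop := by
  have h1 : Tendsto (fun u : ℝ => √u / 400) atTop atTop :=
    Real.tendsto_sqrt_atTop.atTop_div_const (by norm_num)
  have h2 : Tendsto (fun u : ℝ => u / (200 * Real.log u)) atTop atTop := by
    refine tendsto_atTop_mono' atTop ?_ h1
    filter_upwards [eventually_gt_atTop 1] with u hu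
    have hu0 : 0 < u := by linarith
    have hl : 0 < Real.log u := Real.log_pos hu
    have hl2 : Real.log u ≤ 2 * √u := by
      have h3 : Real.log u = 2 * Real.log (√u) := by
        rw [Real.log_sqrt hu0.le]
        ring
      rw [h3]
      have h4 := Real.log_le_sub_one_of_pos (Real.sqrt_pos.mpr hu0)
      linarith
    rw [div_le_div_iff₀ (by norm_num) (by positivity)]
    have h5 : √u * √u = u := Real.mul_self_sqrt hu0.le
    have h6 : 0 < √u := Real.sqrt_pos.mpr hu0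
    nlinarith
  have h3 : Tendsto (fun T : ℕ => Real.log (T : ℝ) / (200 * Real.log (Real.log (T : ℝ)))) atTop atTop :=
    h2.comp tendsto_logT
  exact Real.tendsto_exp_atTop.comp h3

/-- **the singular factors are close to one in mean square** -/
theorem t_FM (hM : S_MERT) (h1 : S_F1) (h2 : S_EXC) (h3 : S_SW3) : S_FM := by
  obtain ⟨C, hC⟩ := hM
  obtain ⟨w0, hw0⟩ := h1
  refine ⟨max w0 400, fun w hw => ?_⟩
  have hw1 : w0 ≤ w := le_trans (le_max_left _ _) hw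
  have hw2 : 400 ≤ w := le_trans (le_max_right _ _) hw
  have hwR : (400 : ℝ) ≤ w := by exact_mod_cast hw2
  obtain ⟨T1, hT1⟩ := hw0 w hw1
  obtain ⟨T2, hT2⟩ := h2 (1 / (w : ℝ)) (by positivity)
  obtain ⟨T3, hT3⟩ := h3
  set K : ℝ := Real.exp (C + 1) with hK
  have hC0 : 0 ≤ C := le_trans (abs_nonneg _) (hC 3 le_rfl)
  have hK1 : 1 ≤ K := by
    rw [hK]
    exact Real.one_le_exp (by linarith)
  have hev : ∀ᶠ T : ℕ in atTop, 16 * (w : ℝ) ≤ z1 T ∧ 1 ≤ Real.log (Real.log (T : ℝ)) ∧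
      2 ≤ (T : ℝ) ^ (1 / 100 : ℝ) ∧ 4 * (w : ℝ) ≤ T ∧
      18 * K ^ 2 * √(w : ℝ) ≤ (T : ℝ) ^ (2 / 25 : ℝ) := by
    refine Eventually.and (tendsto_z1.eventually_ge_atTop _) (Eventually.and ?_
      (Eventually.and ?_ (Eventually.and ?_ ?_)))
    · exact (Real.tendsto_log_atTop.comp tendsto_logT).eventually_ge_atTop 1
    · exact ((tendsto_rpow_atTop (by norm_num : (0 : ℝ) < 1 / 100)).comp
        tendsto_natCast_atTop_atTop).eventually_ge_atTop 2
    · exact tendsto_natCast_atTop_atTop.eventually_ge_atTop _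
    · exact ((tendsto_rpow_atTop (by norm_num : (0 : ℝ) < 2 / 25)).comp
        tendsto_natCast_atTop_atTop).eventually_ge_atTop _
  obtain ⟨T4, hT4⟩ := eventually_atTop.mp hev
  refine ⟨max (max T1 T2) (max T3 T4), fun T hT y => ?_⟩
  have hTT1 : T1 ≤ T := by omega
  have hTT2 : T2 ≤ T := by omega
  have hTT3 : T3 ≤ T := by omega
  have hTT4 : T4 ≤ T := by omega
  obtain ⟨hz1, hll, hT100, hTw, hTb⟩ := hT4 T hTT4
  have hTpos : (0 : ℝ) < T := by linarith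
  have hT1' : (1 : ℝ) ≤ T := by linarith
  -- z1 ≤ z2
  have hz12 : z1 T ≤ z2 T := by
    unfold z1 z2
    apply Real.exp_le_exp.mpr
    have h4 : Real.log (T : ℝ) ≤ (T : ℝ) ^ (1 / 100 : ℝ) / (1 / 100) :=
      Real.log_le_rpow_div hTpos.le (by norm_num)
    rw [div_le_iff₀ (by linarith)]
    have h5 : 0 < (T : ℝ) ^ (1 / 100 : ℝ) := by positivity
    nlinarith
  have hwz : (w : ℝ) ≤ z1 T := by linarith
  set A1 := (pr y).filter (fun p : ℕ => w < p ∧ (p : ℝ) ≤ z1 T) with hA1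
  set A2 := (pr y).filter (fun p : ℕ => z1 T < p ∧ (p : ℝ) ≤ z2 T) with hA2
  set A3 := (pr y).filter (fun p : ℕ => z2 T < p) with hA3
  have hsplit : ∀ h, Ff w y h = GG A1 h * (GG A2 h * GG A3 h) := by
    intro h
    unfold Ff GG
    have hd23 : Disjoint A2 A3 := by
      rw [Finset.disjoint_left]
      intro p hp hp'
      have e1 := (Finset.mem_filter.mp hp).2.2
      have e2 := (Finset.mem_filter.mp hp').2
      linarith
    have hd1 : Disjoint A1 (A2 ∪ A3) := by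
      rw [Finset.disjoint_left]
      intro p hp hp'
      have e1 := (Finset.mem_filter.mp hp).2.2
      rcases Finset.mem_union.mp hp' with e | e
      · have e2 := (Finset.mem_filter.mp e).2.1
        linarith
      · have e2 := (Finset.mem_filter.mp e).2
        linarith
    rw [← Finset.prod_union hd23, ← Finset.prod_union hd1]
    refine Finset.prod_congr ?_ fun _ _ => rfl
    ext p
    simp only [hA1, hA2, hA3, Finset.mem_union, Finset.mem_filter]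
    constructor
    · rintro ⟨hp, hwp⟩
      rcases le_or_gt (p : ℝ) (z1 T) with h4 | h4
      · exact Or.inl ⟨hp, hwp, h4⟩
      · rcases le_or_gt (p : ℝ) (z2 T) with h5 | h5
        · exact Or.inr (Or.inl ⟨hp, h4, h5⟩)
        · exact Or.inr (Or.inr ⟨hp, h5⟩)
    · rintro (⟨hp, h4, _⟩ | ⟨hp, h4, _⟩ | ⟨hp, h4⟩)
      · exact ⟨hp, h4⟩
      · refine ⟨hp, ?_⟩
        have : (w : ℝ) < p := by linarith
        exact_mod_cast this
      · refine ⟨hp, ?_⟩
        have : (w : ℝ) < p := by linarith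
        exact_mod_cast this
  have h5A1 : ∀ p ∈ A1, 5 ≤ p := by
    intro p hp
    have := (Finset.mem_filter.mp hp).2.1
    omega
  have h5A2 : ∀ p ∈ A2, 5 ≤ p := by
    intro p hp
    have e := (Finset.mem_filter.mp hp).2.1
    have : (5 : ℝ) ≤ p := by linarith
    exact_mod_cast this
  have h5A3 : ∀ p ∈ A3, 5 ≤ p := by
    intro p hp
    have e := (Finset.mem_filter.mp hp).2
    have : (5 : ℝ) ≤ p := by linarith
    exact_mod_cast this
  have hz1z : 8 / z1 T ≤ 1 / (2 * (w : ℝ)) := by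
    rw [div_le_div_iff₀ (by linarith) (by linarith)]
    linarith
  have hz2z : 8 / z2 T ≤ 1 / (2 * (w : ℝ)) := by
    rw [div_le_div_iff₀ (by linarith) (by linarith)]
    linarith
  have hTinv : 1 / (T : ℝ) ≤ 1 / (4 * (w : ℝ)) := one_div_le_one_div_of_le (by linarith) hTw
  have hw4 : 1 / (4 * (w : ℝ)) = (1 / 4) * (1 / (w : ℝ)) := by field_simp
  have hw2' : 1 / (2 * (w : ℝ)) = (1 / 2) * (1 / (w : ℝ)) := by field_simp
  have hw400 : 1 / (w : ℝ) ≤ 1 / 400 := one_div_le_one_div_of_le (by norm_num) hwR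
  have hw0' : 0 < 1 / (w : ℝ) := by positivity
  -- the sum over the large primes
  have hA3x : ∀ h ∈ Icc 1 T, GG A3 h ≤ 2 := by
    intro h hh
    obtain ⟨x, hx1, hx2⟩ := GG_exp A3 h h5A3 (z2 T) (by linarith)
      (fun p hp => (Finset.mem_filter.mp hp).2)
    have hx3 := hT3 T hTT3 h hh y
    rw [hx1]
    have hx4 : |x| ≤ 1 / 2 := by linarith
    have hx5 : |x| ≤ 1 := by linarith
    have := Real.abs_exp_sub_one_le hx5
    have h7 := (abs_le.mp this).2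
    linarith
  -- the non-exceptional numbers
  have hne : ∀ h ∈ Icc 1 T, |∑ p ∈ A2, (leg h p : ℝ) / p| ≤ 1 / (w : ℝ) →
      |GG A2 h * GG A3 h - 1| ≤ 4 / w := by
    intro h hh hb
    have hd23 : Disjoint A2 A3 := by
      rw [Finset.disjoint_left]
      intro p hp hp'
      have e1 := (Finset.mem_filter.mp hp).2.2
      have e2 := (Finset.mem_filter.mp hp').2
      linarith
    have hG : GG A2 h * GG A3 h = GG (A2 ∪ A3) h := by
      unfold GG
      rw [Finset.prod_union hd23]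
    obtain ⟨x, hx1, hx2⟩ := GG_exp (A2 ∪ A3) h (fun p hp => by
        rcases Finset.mem_union.mp hp with e | e
        · exact h5A2 p e
        · exact h5A3 p e) (z1 T) (by linarith) (fun p hp => by
        rcases Finset.mem_union.mp hp with e | e
        · exact (Finset.mem_filter.mp e).2.1
        · exact lt_of_le_of_lt hz12 (Finset.mem_filter.mp e).2)
    rw [Finset.sum_union hd23] at hx2
    have hx3 := hT3 T hTT3 h hh y
    have hx4 := abs_add_le (∑ p ∈ A2, (leg h p : ℝ) / p) (∑ p ∈ A3, (leg h p : ℝ) / p)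
    have hx5 : |x| ≤ 2 / w := by
      have : (2 : ℝ) / w = 2 * (1 / (w : ℝ)) := by ring
      rw [this]
      linarith
    have hx6 : |x| ≤ 1 := by
      have : (2 : ℝ) / w = 2 * (1 / (w : ℝ)) := by ring
      linarith
    rw [hG, hx1]
    have := Real.abs_exp_sub_one_le hx6
    have h8 : (4 : ℝ) / w = 2 * (2 / w) := by ring
    rw [h8]
    linarith
  -- the crude bound
  have hcr : ∀ h ∈ Icc 1 T, (Ff w y h - 1) ^ 2 ≤ (2 * K * (T : ℝ) ^ (1 / 100 : ℝ) + 1) ^ 2 := by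
    intro h hh
    have hN3 : 3 ≤ ⌊z2 T⌋₊ := Nat.le_floor (by push_cast; linarith)
    have hsub : A1 ∪ A2 ⊆ pr ⌊z2 T⌋₊ := by
      intro p hp
      have hpz : (p : ℝ) ≤ z2 T := by
        rcases Finset.mem_union.mp hp with e | e
        · have := (Finset.mem_filter.mp e).2.2
          linarith
        · exact (Finset.mem_filter.mp e).2.2
      have hpy : p ∈ pr y := by
        rcases Finset.mem_union.mp hp with e | e
        · exact (Finset.mem_filter.mp e).1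
        · exact (Finset.mem_filter.mp e).1
      unfold pr at hpy ⊢
      rw [Finset.mem_filter, Finset.mem_Icc] at hpy ⊢
      exact ⟨⟨hpy.1.1, Nat.le_floor hpz⟩, hpy.2⟩
    have hd12 : Disjoint A1 A2 := by
      rw [Finset.disjoint_left]
      intro p hp hp'
      have e1 := (Finset.mem_filter.mp hp).2.2
      have e2 := (Finset.mem_filter.mp hp').2.1
      linarith
    have hG := GG_le C _ hN3 (hC _ hN3) (A1 ∪ A2) h (fun p hp => by
        rcases Finset.mem_union.mp hp with e | e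
        · exact h5A1 p e
        · exact h5A2 p e) hsub
    have hG2 : GG (A1 ∪ A2) h = GG A1 h * GG A2 h := by
      unfold GG
      rw [Finset.prod_union hd12]
    have hlog : Real.log (⌊z2 T⌋₊ : ℝ) ≤ (T : ℝ) ^ (1 / 100 : ℝ) := by
      have h6 : (⌊z2 T⌋₊ : ℝ) ≤ z2 T := Nat.floor_le (by linarith)
      have h7 : (0 : ℝ) < (⌊z2 T⌋₊ : ℝ) := by
        have : 0 < ⌊z2 T⌋₊ := by omega
        exact_mod_cast this
      calc Real.log (⌊z2 T⌋₊ : ℝ) ≤ Real.log (z2 T) := Real.log_le_log h7 h6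
        _ = (T : ℝ) ^ (1 / 100 : ℝ) := by
            unfold z2
            rw [Real.log_exp]
    have hK0 : 0 < K := by linarith
    have h12 : GG A1 h * GG A2 h ≤ K * (T : ℝ) ^ (1 / 100 : ℝ) := by
      rw [← hG2]
      exact hG.trans (by gcongr)
    have hFpos : 0 < Ff w y h := by
      rw [hsplit]
      exact mul_pos (GG_pos _ _ h5A1) (mul_pos (GG_pos _ _ h5A2) (GG_pos _ _ h5A3))
    have hFle : Ff w y h ≤ 2 * K * (T : ℝ) ^ (1 / 100 : ℝ) := by
      rw [hsplit]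
      calc GG A1 h * (GG A2 h * GG A3 h) = (GG A1 h * GG A2 h) * GG A3 h := by ring
        _ ≤ (K * (T : ℝ) ^ (1 / 100 : ℝ)) * 2 := by
            have := GG_pos A3 h h5A3
            have := hA3x h hh
            gcongr
        _ = 2 * K * (T : ℝ) ^ (1 / 100 : ℝ) := by ring
    apply sq_le_sq'
    · linarith
    · linarith
  -- the second moment of the first factor
  have hF1 : ∑ h ∈ Icc 1 T, (GG A1 h - 1) ^ 2 ≤ 4 * (T : ℝ) / w := hT1 T hTT1 y
  set E := (Icc 1 T).filter (fun h => 1 / (w : ℝ) < |∑ p ∈ A2, (leg h p : ℝ) / p|) with hE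
  have hEc : (E.card : ℝ) ≤ (T : ℝ) ^ (9 / 10 : ℝ) := hT2 T hTT2 y
  set M : ℝ := (2 * K * (T : ℝ) ^ (1 / 100 : ℝ) + 1) ^ 2 with hMdef
  have hM0 : 0 ≤ M := by positivity
  have hpt : ∀ h ∈ Icc 1 T, (Ff w y h - 1) ^ 2 ≤
      (2 + 64 / (w : ℝ) ^ 2) * (GG A1 h - 1) ^ 2 + 64 / (w : ℝ) ^ 2 +
        (if h ∈ E then M else 0) := by
    intro h hh
    by_cases hhE : h ∈ E
    · rw [if_pos hhE]
      have h4 := hcr h hh
      have h5 : 0 ≤ (2 + 64 / (w : ℝ) ^ 2) * (GG A1 h - 1) ^ 2 + 64 / (w : ℝ) ^ 2 := by positivity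
      linarith
    · rw [if_neg hhE, add_zero]
      have hb : |∑ p ∈ A2, (leg h p : ℝ) / p| ≤ 1 / (w : ℝ) := by
        by_contra hcon
        exact hhE (Finset.mem_filter.mpr ⟨hh, not_le.mp hcon⟩)
      have h4 := hne h hh hb
      rw [hsplit]
      set a := GG A1 h with ha
      set g := GG A2 h * GG A3 h with hg
      have h5 : (g - 1) ^ 2 ≤ 16 / (w : ℝ) ^ 2 := by
        calc (g - 1) ^ 2 = |g - 1| ^ 2 := (sq_abs _).symm
          _ ≤ (4 / (w : ℝ)) ^ 2 := by gcongr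
          _ = 16 / (w : ℝ) ^ 2 := by ring
      have h6 : (a * g - 1) ^ 2 ≤ 2 * (a - 1) ^ 2 + 2 * (a ^ 2 * (g - 1) ^ 2) := by
        have h61 : a * g - 1 = (a - 1) + a * (g - 1) := by ring
        rw [h61]
        nlinarith [sq_nonneg ((a - 1) - a * (g - 1))]
      have h7 : a ^ 2 ≤ 2 * (a - 1) ^ 2 + 2 := by nlinarith [sq_nonneg (a - 2)]
      have h8 : a ^ 2 * (g - 1) ^ 2 ≤ (2 * (a - 1) ^ 2 + 2) * (16 / (w : ℝ) ^ 2) := by
        gcongr
      calc (a * g - 1) ^ 2 ≤ 2 * (a - 1) ^ 2 + 2 * ((2 * (a - 1) ^ 2 + 2) * (16 / (w : ℝ) ^ 2)) := by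
            linarith
        _ = (2 + 64 / (w : ℝ) ^ 2) * (a - 1) ^ 2 + 64 / (w : ℝ) ^ 2 := by ring
  have hsum := Finset.sum_le_sum hpt
  rw [Finset.sum_add_distrib, Finset.sum_add_distrib, ← Finset.mul_sum, Finset.sum_const,
    Nat.card_Icc, Finset.sum_ite_mem, Finset.sum_const, nsmul_eq_mul, nsmul_eq_mul] at hsum
  have hcardE : ((Icc 1 T ∩ E).card : ℝ) ≤ (T : ℝ) ^ (9 / 10 : ℝ) := by
    refine le_trans ?_ hEc
    exact_mod_cast Finset.card_le_card Finset.inter_subset_right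
  have hterm3 : ((Icc 1 T ∩ E).card : ℝ) * M ≤ (T : ℝ) / (2 * √(w : ℝ)) := by
    have h4 : M ≤ 9 * K ^ 2 * (T : ℝ) ^ (1 / 50 : ℝ) := by
      have h5 : 2 * K * (T : ℝ) ^ (1 / 100 : ℝ) + 1 ≤ 3 * K * (T : ℝ) ^ (1 / 100 : ℝ) := by
        nlinarith
      have h6 : ((T : ℝ) ^ (1 / 100 : ℝ)) ^ 2 = (T : ℝ) ^ (1 / 50 : ℝ) := by
        rw [← Real.rpow_natCast, ← Real.rpow_mul hTpos.le]
        norm_num
      calc M ≤ (3 * K * (T : ℝ) ^ (1 / 100 : ℝ)) ^ 2 := by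
            rw [hMdef]
            have : 0 ≤ 2 * K * (T : ℝ) ^ (1 / 100 : ℝ) + 1 := by positivity
            gcongr
        _ = 9 * K ^ 2 * ((T : ℝ) ^ (1 / 100 : ℝ)) ^ 2 := by ring
        _ = 9 * K ^ 2 * (T : ℝ) ^ (1 / 50 : ℝ) := by rw [h6]
    have h7 : (T : ℝ) ^ (9 / 10 : ℝ) * (T : ℝ) ^ (1 / 50 : ℝ) = (T : ℝ) ^ (23 / 25 : ℝ) := by
      rw [← Real.rpow_add hTpos]
      norm_num
    have h8 : (T : ℝ) ^ (23 / 25 : ℝ) * (T : ℝ) ^ (2 / 25 : ℝ) = T := by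
      rw [← Real.rpow_add hTpos]
      norm_num
    have hsw : 0 < √(w : ℝ) := Real.sqrt_pos.mpr (by linarith)
    rw [le_div_iff₀ (by positivity)]
    calc ((Icc 1 T ∩ E).card : ℝ) * M * (2 * √(w : ℝ))
        ≤ (T : ℝ) ^ (9 / 10 : ℝ) * (9 * K ^ 2 * (T : ℝ) ^ (1 / 50 : ℝ)) * (2 * √(w : ℝ)) := by
          gcongr
      _ = ((T : ℝ) ^ (9 / 10 : ℝ) * (T : ℝ) ^ (1 / 50 : ℝ)) * (18 * K ^ 2 * √(w : ℝ)) := by ring
      _ ≤ ((T : ℝ) ^ (9 / 10 : ℝ) * (T : ℝ) ^ (1 / 50 : ℝ)) * (T : ℝ) ^ (2 / 25 : ℝ) := by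
          gcongr
      _ = T := by rw [h7, h8]
  have hterm12 : (2 + 64 / (w : ℝ) ^ 2) * ∑ h ∈ Icc 1 T, (GG A1 h - 1) ^ 2 +
      ((T + 1 - 1 : ℕ) : ℝ) * (64 / (w : ℝ) ^ 2) ≤ (T : ℝ) / (2 * √(w : ℝ)) := by
    have h4 : 64 / (w : ℝ) ^ 2 ≤ (64 / 400) * (1 / (w : ℝ)) := by
      have : 64 / (w : ℝ) ^ 2 = 64 * (1 / (w : ℝ)) * (1 / (w : ℝ)) := by
        field_simp
      rw [this]
      nlinarith
    have h5 : 64 / (w : ℝ) ^ 2 ≤ 1 / 4 := by linarith
    have h6 : (T + 1 - 1 : ℕ) = T := by omega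
    rw [h6]
    have h7 : (2 + 64 / (w : ℝ) ^ 2) * ∑ h ∈ Icc 1 T, (GG A1 h - 1) ^ 2 ≤
        (2 + 1 / 4) * (4 * (T : ℝ) / w) := by
      have : 0 ≤ ∑ h ∈ Icc 1 T, (GG A1 h - 1) ^ 2 := Finset.sum_nonneg fun _ _ => sq_nonneg _
      gcongr
    have h8 : (T : ℝ) * (64 / (w : ℝ) ^ 2) ≤ T * ((64 / 400) * (1 / (w : ℝ))) := by
      gcongr
    have h9 : (4 * (T : ℝ) / w) = 4 * (T * (1 / (w : ℝ))) := by ring
    have h10 : (T : ℝ) / (2 * √(w : ℝ)) ≥ 10 * (T * (1 / (w : ℝ))) := by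
      have hsw : 20 ≤ √(w : ℝ) := by
        rw [show (20 : ℝ) = √400 by
          rw [show (400 : ℝ) = 20 ^ 2 by norm_num, Real.sqrt_sq (by norm_num)]]
        exact Real.sqrt_le_sqrt hwR
      have h11 : √(w : ℝ) * √(w : ℝ) = w := Real.mul_self_sqrt (by linarith)
      rw [ge_iff_le, le_div_iff₀ (by positivity)]
      have h12 : 10 * (T * (1 / (w : ℝ))) * (2 * √(w : ℝ)) = T * (20 * (√(w : ℝ) / w)) := by
        ring
      rw [h12]
      have h13 : 20 * (√(w : ℝ) / w) ≤ 1 := by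
        rw [← mul_div_assoc, div_le_one (by linarith)]
        nlinarith
      nlinarith
    have h14 : 0 ≤ (T : ℝ) * (1 / (w : ℝ)) := by positivity
    rw [h9] at h7
    have h15 : (T : ℝ) * ((64 / 400) * (1 / (w : ℝ))) = (64 / 400) * (T * (1 / (w : ℝ))) := by ring
    rw [h15] at h8
    linarith
  have hfin : (T : ℝ) / √(w : ℝ) = (T : ℝ) / (2 * √(w : ℝ)) + (T : ℝ) / (2 * √(w : ℝ)) := by
    have hsw : 0 < √(w : ℝ) := Real.sqrt_pos.mpr (by linarith)
    field_simp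
    ring
  rw [hfin]
  linarith

end Pool.Agent.Y117.SQ
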